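import Mathlib

/-!
# Discrete Wirtinger inequality on a cycle, double tracings of connected graphs
-/

set_option autoImplicit false

namespace Pool.Agent.K4Lead.Relax

open Finset ZMod

/-- Parseval on `ZMod N`. -/
theorem parseval {N : ℕ} [NeZero N] (b : ZMod N → ℂ) :
    ∑ k : ZMod N, ‖∑ j, b j * stdAddChar (-(k * j))‖ ^ 2 = N * ∑ j, ‖b j‖ ^ 2 := by
  have h : ((∑ k : ZMod N, ‖∑ j, b j * stdAddChar (-(k * j))‖ ^ 2 : ℝ) : ℂ) =
      ((N * ∑ j, ‖b j‖ ^ 2 : ℝ) : ℂ) := by
    push_cast
    have e1 : ∀ k : ZMod N, ((‖∑ j, b j * stdAddChar (-(k * j))‖ : ℂ)) ^ 2 =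
        ∑ j, ∑ l, b j * (starRingEnd ℂ) (b l) * stdAddChar (k * (l - j)) := by
      intro k
      rw [← Complex.mul_conj', map_sum, Finset.sum_mul_sum]
      refine Finset.sum_congr rfl fun j _ => Finset.sum_congr rfl fun l _ => ?_
      rw [map_mul, ← AddChar.map_neg_eq_conj, neg_neg]
      have : (stdAddChar (k * (l - j)) : ℂ) = stdAddChar (-(k * j)) * stdAddChar (k * l) := by
        rw [← AddChar.map_add_eq_mul]
        congr 1
        ring
      rw [this]
      ring
    simp only [e1]
    rw [Finset.sum_comm, Finset.mul_sum]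
    refine Finset.sum_congr rfl fun j _ => ?_
    rw [Finset.sum_comm]
    have e2 : ∀ l : ZMod N, ∑ k : ZMod N, b j * (starRingEnd ℂ) (b l) *
        stdAddChar (k * (l - j)) = if l = j then (N : ℂ) * (‖b j‖ : ℂ) ^ 2 else 0 := by
      intro l
      rw [← Finset.mul_sum, AddChar.sum_mulShift _ (isPrimitive_stdAddChar N), ZMod.card]
      by_cases h : l = j
      · rw [if_pos h, if_pos (sub_eq_zero.2 h), h, Complex.mul_conj']
        ring
      · rw [if_neg h, if_neg (sub_ne_zero.2 h)]
        simp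
    simp only [e2]
    simp
  exact_mod_cast h

theorem char_gap {N : ℕ} [NeZero N] (k : ZMod N) (hk : k ≠ 0) :
    4 * Real.sin (Real.pi / N) ^ 2 ≤ ‖(stdAddChar k : ℂ) - 1‖ ^ 2 := by
  have hN : 0 < N := Nat.pos_of_ne_zero (NeZero.ne N)
  have hNR : (0 : ℝ) < N := by exact_mod_cast hN
  set v := k.val with hv
  have hvpos : 1 ≤ v := by
    rcases Nat.eq_zero_or_pos v with h | h
    · exact absurd ((ZMod.val_eq_zero k).1 h) hk
    · exact h
  have hvlt : v < N := ZMod.val_lt k
  have hch : (stdAddChar k : ℂ) = Complex.exp (((2 * Real.pi * v / N : ℝ) : ℂ) * Complex.I) := by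
    have := ZMod.stdAddChar_coe (N := N) (v : ℤ)
    have hk' : (((v : ℤ)) : ZMod N) = k := by
      rw [hv]; simp
    rw [hk'] at this
    rw [this]
    congr 1
    push_cast
    ring
  have hnorm : ‖(stdAddChar k : ℂ) - 1‖ ^ 2 = 4 * Real.sin (Real.pi * v / N) ^ 2 := by
    rw [hch, Complex.exp_mul_I, ← Complex.normSq_eq_norm_sq, Complex.normSq_apply]
    rw [← Complex.ofReal_cos, ← Complex.ofReal_sin]
    simp only [Complex.sub_re, Complex.add_re, Complex.ofReal_re, Complex.mul_re, Complex.I_re,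
      Complex.ofReal_im, Complex.I_im, Complex.one_re, Complex.sub_im, Complex.add_im,
      Complex.mul_im, Complex.one_im]
    have h2 : (2 * Real.pi * v / N : ℝ) = 2 * (Real.pi * v / N) := by ring
    rw [h2, Real.cos_two_mul, Real.sin_two_mul]
    have := Real.sin_sq_add_cos_sq (Real.pi * v / N)
    nlinarith [this]
  rw [hnorm]
  have hpi := Real.pi_pos
  have h1 : 0 ≤ Real.sin (Real.pi / N) := by
    apply Real.sin_nonneg_of_nonneg_of_le_pi (by positivity)
    rw [div_le_iff₀ hNR]
    have : (1 : ℝ) ≤ N := by exact_mod_cast hN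
    nlinarith
  have h2 : Real.sin (Real.pi / N) ≤ Real.sin (Real.pi * v / N) := by
    have hv1 : (1 : ℝ) ≤ v := by exact_mod_cast hvpos
    have hv2 : (v : ℝ) + 1 ≤ N := by exact_mod_cast hvlt
    rcases le_total ((v : ℝ) / N) (1 / 2) with h | h
    · apply Real.sin_le_sin_of_le_of_le_pi_div_two
      · have : 0 ≤ Real.pi / N := by positivity
        linarith
      · have : Real.pi * v / N = Real.pi * (v / N) := by ring
        rw [this]
        nlinarith
      · apply div_le_div_of_nonneg_right _ hNR.le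
        nlinarith
    · have e : Real.sin (Real.pi * v / N) = Real.sin (Real.pi * (N - v) / N) := by
        rw [← Real.sin_pi_sub]
        congr 1
        field_simp
      rw [e]
      apply Real.sin_le_sin_of_le_of_le_pi_div_two
      · have : 0 ≤ Real.pi / N := by positivity
        linarith
      · have : Real.pi * (N - v) / N = Real.pi * (1 - v / N) := by field_simp
        rw [this]
        nlinarith
      · apply div_le_div_of_nonneg_right _ hNR.le
        nlinarith
  nlinarith

/-- Discrete Wirtinger inequality on the cycle of length `N`. -/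
theorem wirtinger {N : ℕ} [NeZero N] (F : ZMod N → ℝ) (h0 : ∑ j, F j = 0) :
    4 * Real.sin (Real.pi / N) ^ 2 * ∑ j, F j ^ 2 ≤ ∑ j, (F (j + 1) - F j) ^ 2 := by
  have hN : 0 < N := Nat.pos_of_ne_zero (NeZero.ne N)
  have hNR : (0 : ℝ) < N := by exact_mod_cast hN
  have p1 := parseval (fun j : ZMod N => (F j : ℂ))
  have p2 := parseval (fun j : ZMod N => ((F (j + 1) - F j : ℝ) : ℂ))
  simp only [Complex.norm_real, Real.norm_eq_abs, sq_abs] at p1 p2
  have hk : ∀ k : ZMod N, 4 * Real.sin (Real.pi / N) ^ 2 *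
      ‖∑ j, (F j : ℂ) * stdAddChar (-(k * j))‖ ^ 2 ≤
      ‖∑ j, ((F (j + 1) - F j : ℝ) : ℂ) * stdAddChar (-(k * j))‖ ^ 2 := by
    intro k
    have e : ∑ j, ((F (j + 1) - F j : ℝ) : ℂ) * stdAddChar (-(k * j)) =
        ((stdAddChar k : ℂ) - 1) * ∑ j, (F j : ℂ) * stdAddChar (-(k * j)) := by
      have e1 : ∑ j, (F (j + 1) : ℂ) * stdAddChar (-(k * j)) =
          (stdAddChar k : ℂ) * ∑ j, (F j : ℂ) * stdAddChar (-(k * j)) := by
        rw [Finset.mul_sum, ← Equiv.sum_comp (Equiv.addRight (1 : ZMod N))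
          (fun j => (stdAddChar k : ℂ) * ((F j : ℂ) * stdAddChar (-(k * j))))]
        refine Finset.sum_congr rfl fun j _ => ?_
        simp only [Equiv.coe_addRight]
        have : (stdAddChar (-(k * j)) : ℂ) = stdAddChar k * stdAddChar (-(k * (j + 1))) := by
          rw [← AddChar.map_add_eq_mul]
          congr 1
          ring
        rw [this]
        ring
      rw [sub_mul, one_mul, ← e1, ← Finset.sum_sub_distrib]
      refine Finset.sum_congr rfl fun j _ => ?_
      push_cast
      ring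
    rw [e, norm_mul, mul_pow]
    by_cases h : k = 0
    · subst h
      have : ∑ j, (F j : ℂ) * stdAddChar (-((0 : ZMod N) * j)) = 0 := by
        simp only [zero_mul, neg_zero, AddChar.map_zero_eq_one, mul_one]
        exact_mod_cast h0
      rw [this]
      simp
    · exact mul_le_mul_of_nonneg_right (char_gap k h) (by positivity)
  have hs := Finset.sum_le_sum fun k (_ : k ∈ (Finset.univ : Finset (ZMod N))) => hk k
  rw [← Finset.mul_sum, p1, p2] at hs
  have : (N : ℝ) * (4 * Real.sin (Real.pi / N) ^ 2 * ∑ j, F j ^ 2) ≤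
      N * ∑ j, (F (j + 1) - F j) ^ 2 := by
    calc (N : ℝ) * (4 * Real.sin (Real.pi / N) ^ 2 * ∑ j, F j ^ 2)
        = 4 * Real.sin (Real.pi / N) ^ 2 * (N * ∑ j, F j ^ 2) := by ring
      _ ≤ _ := hs
  exact le_of_mul_le_mul_left this hNR

end Pool.Agent.K4Lead.Relax
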