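import Pool.Agent.K4Lead.Relax

/-!
# Double tracings of connected graphs
-/

set_option autoImplicit false

namespace Pool.Agent.K4Lead.Relax

open Finset SimpleGraph

variable {V : Type} [Fintype V] [DecidableEq V] {G : SimpleGraph V}

/-- one step: insert a detour at a vertex of the walk -/
theorem insert_detour {u : V} (w : G.Walk u u) (d : G.Dart) (hd : d.fst ∈ w.support)
    (hn : w.darts.Nodup) (hs : ∀ e ∈ w.darts, e.symm ∈ w.darts) (hdn : d ∉ w.darts) :
    ∃ w' : G.Walk u u, w'.darts.Nodup ∧ (∀ e ∈ w'.darts, e.symm ∈ w'.darts) ∧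
      w'.length = w.length + 2 := by
  classical
  let w1 := w.takeUntil d.fst hd
  let w2 := w.dropUntil d.fst hd
  let mid : G.Walk d.fst d.fst := Walk.cons d.adj (Walk.cons d.adj.symm Walk.nil)
  have hspec : w1.append w2 = w := w.take_spec hd
  have hdarts : w.darts = w1.darts ++ w2.darts := by
    rw [← hspec, Walk.darts_append]
  have hmid : mid.darts = [d, d.symm] := by
    simp [mid, Walk.darts_cons, Dart.symm]
    rfl
  let w' := w1.append (mid.append w2)
  have hw' : w'.darts = w1.darts ++ ([d, d.symm] ++ w2.darts) := by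
    simp only [w', Walk.darts_append, hmid]
  have hperm : w'.darts.Perm (d :: d.symm :: w.darts) := by
    rw [hw', hdarts]
    have : (w1.darts ++ ([d, d.symm] ++ w2.darts)).Perm ([d, d.symm] ++ (w1.darts ++ w2.darts)) := by
      rw [← List.append_assoc, ← List.append_assoc]
      exact (List.perm_append_comm).append_right _
    simpa using this
  have hdsn : d.symm ∉ w.darts := by
    intro h
    have := hs _ h
    rw [Dart.symm_symm] at this
    exact hdn this
  refine ⟨w', ?_, ?_, ?_⟩
  · rw [hperm.nodup_iff]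
    refine List.nodup_cons.2 ⟨?_, List.nodup_cons.2 ⟨hdsn, hn⟩⟩
    rw [List.mem_cons]
    rintro (h | h)
    · exact d.symm_ne h.symm
    · exact hdn h
  · intro e he
    rw [hperm.mem_iff] at he ⊢
    simp only [List.mem_cons] at he ⊢
    rcases he with rfl | rfl | he
    · right; left; rfl
    · left; exact Dart.symm_symm d
    · right; right; exact hs e he
  · have h1 := hperm.length_eq
    simp only [List.length_cons, Walk.length_darts] at h1
    omega

/-- In a connected graph there is a closed walk which traverses every dart exactly once. -/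
theorem double_tracing (hG : G.Connected) [DecidableRel G.Adj] (u : V) :
    ∃ w : G.Walk u u, w.darts.Nodup ∧ ∀ d : G.Dart, d ∈ w.darts := by
  classical
  let P : ℕ → Prop := fun n => ∃ w : G.Walk u u, w.darts.Nodup ∧
    (∀ e ∈ w.darts, e.symm ∈ w.darts) ∧ w.length = n
  have hP0 : P 0 := ⟨Walk.nil, by simp, by simp, rfl⟩
  have hbd : ∀ n, P n → n ≤ Fintype.card G.Dart := by
    rintro n ⟨w, hn, -, rfl⟩
    rw [← w.length_darts]
    exact hn.length_le_card
  obtain ⟨w, hn, hs, hl⟩ := Nat.findGreatest_spec (P := P) (Nat.zero_le (Fintype.card G.Dart)) hP0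
  refine ⟨w, hn, ?_⟩
  by_contra hcon
  push Not at hcon
  obtain ⟨d0, hd0⟩ := hcon
  have hex : ∃ d : G.Dart, d.fst ∈ w.support ∧ d ∉ w.darts := by
    by_contra h
    push Not at h
    have hclosed : ∀ x y : V, x ∈ w.support → G.Adj x y → y ∈ w.support := by
      intro x y hx hxy
      have := h ⟨(x, y), hxy⟩ hx
      exact w.dart_snd_mem_support_of_mem_darts this
    have hall : ∀ y : V, y ∈ w.support := by
      intro y
      obtain ⟨p⟩ := hG.preconnected u y
      have : ∀ (a b : V) (q : G.Walk a b), a ∈ w.support → b ∈ w.support := by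
        intro a b q
        induction q with
        | nil => exact id
        | cons hadj _ ih => exact fun ha => ih (hclosed _ _ ha hadj)
      exact this u y p w.start_mem_support
    exact hd0 (h d0 (hall _))
  obtain ⟨d, hd, hdn⟩ := hex
  obtain ⟨w', h1, h2, h3⟩ := insert_detour w d hd hn hs hdn
  have hP : P (w.length + 2) := ⟨w', h1, h2, h3⟩
  have := Nat.le_findGreatest (P := P) (hbd _ hP) hP
  omega

/-- sums along a walk -/
theorem sum_walk {u v : V} (w : G.Walk u v) (g : V → V → ℝ) :
    (w.darts.map fun d => g d.fst d.snd).sum =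
      ∑ i ∈ range w.length, g (w.getVert i) (w.getVert (i + 1)) := by
  induction w with
  | nil => simp
  | cons h p ih =>
    rw [Walk.darts_cons, List.map_cons, List.sum_cons, ih, Walk.length_cons,
      Finset.sum_range_succ']
    rw [add_comm]
    congr 1
    simp

theorem sum_darts {u v : V} (w : G.Walk u v) [DecidableRel G.Adj] (hn : w.darts.Nodup)
    (ha : ∀ d : G.Dart, d ∈ w.darts) (g : G.Dart → ℝ) :
    (w.darts.map g).sum = ∑ d : G.Dart, g d := by
  classical
  have : (Finset.univ : Finset G.Dart) = w.darts.toFinset := by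
    ext d; simp [ha d]
  rw [this, List.sum_toFinset g hn]

theorem sum_dart_fst [DecidableRel G.Adj] (g : V → ℝ) :
    ∑ d : G.Dart, g d.fst = ∑ v, (G.degree v : ℝ) * g v := by
  classical
  rw [← Finset.sum_fiberwise (s := (Finset.univ : Finset G.Dart)) (g := fun d => d.fst)]
  refine Finset.sum_congr rfl fun v _ => ?_
  rw [← G.dart_fst_fiber_card_eq_degree v, ← nsmul_eq_mul]
  rw [Finset.sum_congr rfl (g := fun _ => g v) (by
    intro d hd; rw [(Finset.mem_filter.1 hd).2])]
  rw [Finset.sum_const]

theorem sum_dart_pair [DecidableRel G.Adj] (g : V → V → ℝ) :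
    ∑ d : G.Dart, g d.fst d.snd = ∑ u, ∑ v, if G.Adj u v then g u v else 0 := by
  classical
  rw [← Finset.sum_product']
  rw [← Finset.sum_filter]
  refine Finset.sum_bij' (fun d _ => d.toProd) (fun p hp => ⟨p, (Finset.mem_filter.1 hp).2⟩)
    ?_ ?_ ?_ ?_ ?_
  · intro d _; simp [d.adj]
  · intro p hp; simp
  · intro d _; rfl
  · intro p hp; rfl
  · intro d _; rfl

/-- The spectral gap of the simple random walk on a connected graph with `m ≥ 1` edges is at least
`1 - cos (π / m) = 2 sin² (π / (2 m))`. -/
theorem gap (hG : G.Connected) [DecidableRel G.Adj] (hm : 1 ≤ G.edgeFinset.card) (f : V → ℝ) :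
    ∃ c : ℝ, 4 * Real.sin (Real.pi / (2 * G.edgeFinset.card)) ^ 2 *
      ∑ v, (G.degree v : ℝ) * (f v - c) ^ 2 ≤
      ∑ u, ∑ v, if G.Adj u v then (f u - f v) ^ 2 else 0 := by
  classical
  obtain ⟨u⟩ := hG.nonempty
  obtain ⟨w, hn, ha⟩ := double_tracing hG u
  have hlen : w.length = 2 * G.edgeFinset.card := by
    rw [← G.dart_card_eq_twice_card_edges, ← w.length_darts, ← List.toFinset_card_of_nodup hn,
      ← Finset.card_univ]
    congr 1
    ext d; simp [ha d]
  set N := 2 * G.edgeFinset.card with hN
  haveI : NeZero N := ⟨by omega⟩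
  have hNpos : 0 < N := by omega
  have hNR : (0 : ℝ) < N := by exact_mod_cast hNpos
  set c : ℝ := (∑ i ∈ range N, f (w.getVert i)) / N with hc
  refine ⟨c, ?_⟩
  let F : ZMod N → ℝ := fun i => f (w.getVert i.val) - c
  have hsum : ∀ g : ℕ → ℝ, ∑ i : ZMod N, g i.val = ∑ i ∈ range N, g i := by
    intro g
    refine Finset.sum_bij' (fun i _ => i.val) (fun i _ => (i : ZMod N)) ?_ ?_ ?_ ?_ ?_
    · intro i _; exact Finset.mem_range.2 (ZMod.val_lt i)
    · intro i _; exact Finset.mem_univ _
    · intro i _; exact ZMod.natCast_zmod_val i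
    · intro i hi; exact ZMod.val_cast_of_lt (Finset.mem_range.1 hi)
    · intro i _; rfl
  have h0 : ∑ j, F j = 0 := by
    have := hsum (fun i => f (w.getVert i) - c)
    simp only [F]
    rw [this, Finset.sum_sub_distrib, Finset.sum_const, Finset.card_range, hc, nsmul_eq_mul]
    field_simp
    ring
  have hnext : ∀ j : ZMod N, F (j + 1) = f (w.getVert (j.val + 1)) - c := by
    intro j
    simp only [F]
    congr 2
    by_cases h : j.val + 1 < N
    · have : (j + 1).val = j.val + 1 := by
        have h1 : j + 1 = ((j.val + 1 : ℕ) : ZMod N) := by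
          push_cast
          rw [ZMod.natCast_zmod_val]
        rw [h1, ZMod.val_cast_of_lt h]
      rw [this]
    · have hlt := ZMod.val_lt j
      have h2 : j.val + 1 = N := by omega
      have h3 : j + 1 = 0 := by
        have h1 : j + 1 = ((j.val + 1 : ℕ) : ZMod N) := by
          push_cast
          rw [ZMod.natCast_zmod_val]
        rw [h1, h2, ZMod.natCast_self]
      rw [h3, h2, ZMod.val_zero, Walk.getVert_zero, ← hlen, Walk.getVert_length]
  have hw := wirtinger F h0
  have e1 : ∑ j, F j ^ 2 = ∑ v, (G.degree v : ℝ) * (f v - c) ^ 2 := by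
    have := hsum (fun i => (f (w.getVert i) - c) ^ 2)
    simp only [F]
    rw [this, ← hlen, ← sum_walk w (fun x _ => (f x - c) ^ 2),
      sum_darts w hn ha (fun d => (f d.fst - c) ^ 2), sum_dart_fst (fun x => (f x - c) ^ 2)]
  have e2 : ∑ j, (F (j + 1) - F j) ^ 2 =
      ∑ u, ∑ v, if G.Adj u v then (f u - f v) ^ 2 else 0 := by
    have h5 : ∀ j : ZMod N, (F (j + 1) - F j) ^ 2 =
        (f (w.getVert j.val) - f (w.getVert (j.val + 1))) ^ 2 := by
      intro j
      rw [hnext]
      simp only [F]
      ring
    rw [Finset.sum_congr rfl fun j _ => h5 j,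
      hsum (fun i => (f (w.getVert i) - f (w.getVert (i + 1))) ^ 2), ← hlen,
      ← sum_walk w (fun x y => (f x - f y) ^ 2),
      sum_darts w hn ha (fun d => (f d.fst - f d.snd) ^ 2),
      sum_dart_pair (fun x y => (f x - f y) ^ 2)]
  rw [e1, e2] at hw
  have : ((N : ℕ) : ℝ) = 2 * (G.edgeFinset.card : ℝ) := by
    rw [hN]; push_cast; ring
  rw [this] at hw
  exact hw

end Pool.Agent.K4Lead.Relax
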